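import Pool.Agent.H468.WN.Clt
import Pool.Agent.H743.X17.ECX

/-!
# The curves of conductor 17: the orders of the Tate-Shafarevich groups as additive functions
-/

set_option autoImplicit false
set_option linter.all false

open scoped Classical

namespace Pool.Agent.H468.WN

open Finset Filter Topology
open Pool.Agent.H468.WM (LL LL_top LL_close filter_card_congr opf opf_eq Wt cnt HGW hglW)
open Pool.Agent.H998_EK (Phi Phi_nonneg Phi_le_one)
open Pool.Agent.H468.WV
open Pool.Agent.N855.GF.Lc17 (Loc)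
open Pool.Agent.Y703.CQ (c2)
open Pool.Agent.H743.X17 (num Rt Sys RS Kn al nu pd na nn eJ eJ_near Exc)
open Pool.Agent.H743.X17.ECX (All sha2 exj all_iff)

/-- `3 mod 4` -/
noncomputable def w3 (a : ℕ) : ℝ := if a % 4 = 3 then 1 else 0

/-- the nonresidues modulo `17` -/
def NR (a : ℕ) : Prop := a % 17 = 3 ∨ a % 17 = 5 ∨ a % 17 = 6 ∨ a % 17 = 7 ∨ a % 17 = 10 ∨
  a % 17 = 11 ∨ a % 17 = 12 ∨ a % 17 = 14

instance (a : ℕ) : Decidable (NR a) := by unfold NR; infer_instance

/-- the indicator -/
noncomputable def wn (a : ℕ) : ℝ := if NR a then 1 else 0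

theorem av_lin (q : ℕ) (x y : ℝ) (u v : ℕ → ℝ) :
    av q (fun a => x * u a + y * v a) = x * av q u + y * av q v := by
  unfold av
  rw [sum_add_distrib, ← mul_sum, ← mul_sum]
  ring

theorem av_ind {P : ℕ → Prop} [DecidablePred P] {k : ℕ}
    (h : (((range 68).filter fun a => a.Coprime 68).filter P).card = k) :
    av 68 (fun a => if P a then 1 else 0) = k / 32 := by
  unfold av
  rw [Finset.sum_boole, h]
  have : Nat.totient 68 = 32 := by decide
  rw [this]
  norm_num

theorem av3 : av 68 w3 = 1 / 2 := by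
  have h := av_ind (P := fun a => a % 4 = 3) (k := 16) (by decide)
  have e : w3 = fun a => if a % 4 = 3 then 1 else 0 := rfl
  rw [e, h]
  norm_num

theorem avn : av 68 wn = 1 / 2 := by
  have h := av_ind (P := NR) (k := 16) (by decide)
  have e : wn = fun a => if NR a then 1 else 0 := rfl
  rw [e, h]
  norm_num

theorem av3n : av 68 (fun a => w3 a * wn a) = 1 / 4 := by
  have h := av_ind (P := fun a => a % 4 = 3 ∧ NR a) (k := 8) (by decide)
  have e : (fun a => w3 a * wn a) = fun a => if a % 4 = 3 ∧ NR a then 1 else 0 := by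
    funext a
    unfold w3 wn
    by_cases h1 : a % 4 = 3 <;> by_cases h2 : NR a <;> simp [h1, h2]
  rw [e, h]
  norm_num

variable {ι : Type} [Fintype ι]

/-- the weights -/
noncomputable def wc (α β : ι → ℝ) (i : ι) (a : ℕ) : ℝ := α i * w3 a + β i * wn a

/-- the covariance -/
noncomputable def VV (α β : ι → ℝ) (i j : ι) : ℝ :=
  (α i * α j + β i * β j) / 2 + (α i * β j + β i * α j) / 4

theorem av_wc (α β : ι → ℝ) (i : ι) : av 68 (wc α β i) = (α i + β i) / 2 := by
  have e : wc α β i = fun a => α i * w3 a + β i * wn a := rfl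
  rw [e, av_lin, av3, avn]
  ring

theorem av_wcc (α β : ι → ℝ) (i j : ι) : av 68 (fun a => wc α β i a * wc α β j a) = VV α β i j := by
  have h3 : ∀ a, w3 a * w3 a = w3 a := by
    intro a
    unfold w3
    split_ifs <;> norm_num
  have hn : ∀ a, wn a * wn a = wn a := by
    intro a
    unfold wn
    split_ifs <;> norm_num
  have e : (fun a => wc α β i a * wc α β j a) = fun a =>
      (α i * α j) * w3 a + 1 * ((β i * β j) * wn a + (α i * β j + β i * α j) * (w3 a * wn a)) := by
    funext a
    unfold wc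
    linear_combination (α i * α j) * h3 a + (β i * β j) * hn a
  rw [e, av_lin 68 (α i * α j) 1 w3
    (fun a => (β i * β j) * wn a + (α i * β j + β i * α j) * (w3 a * wn a)),
    av_lin 68 (β i * β j) (α i * β j + β i * α j) wn (fun a => w3 a * wn a), av3, avn, av3n]
  unfold VV
  ring

theorem vec_c (α β : ι → ℝ) (hpos : ∀ i, 0 < VV α β i i) (ho : ∀ i j, i ≠ j → VV α β i j = 0) :
    Vec (fw 68 (wc α β)) (fun i => (α i + β i) / 2) (fun i => VV α β i i) := by
  refine vec_w (by norm_num) (av_wc α β) (fun i j => ?_) ?_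
  · rw [av_wcc]
    split_ifs with h
    · rw [h]
    · exact ho i j h
  · rcases isEmpty_or_nonempty ι with h | h
    · exact ⟨1, one_pos, fun i => h.elim i⟩
    · obtain ⟨i₀, hi⟩ := Finite.exists_min fun i => VV α β i i
      exact ⟨VV α β i₀ i₀, hpos i₀, hi⟩

/-! ### the exponents -/

/-- the number of the odd primes `3 mod 4` -/
noncomputable def n3 (S : Finset ℕ) : ℕ := (S.filter fun p => p % 4 = 3).card

/-- the number of the odd primes which are nonresidues modulo `17` -/
noncomputable def n17 (S : Finset ℕ) : ℕ := (S.filter fun p => NR p).card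

theorem gw_eq (α β : ι → ℝ) (i : ι) (S : Finset ℕ) :
    gw 68 (wc α β) i S = α i * n3 S + β i * n17 S := by
  unfold gw wc n3 n17
  rw [sum_add_distrib, ← mul_sum, ← mul_sum]
  have e1 : ∑ p ∈ S, w3 (p % 68) = ((S.filter fun p => p % 4 = 3).card : ℝ) := by
    rw [← Finset.sum_boole]
    refine sum_congr rfl fun p _ => ?_
    unfold w3
    rw [Nat.mod_mod_of_dvd p (by norm_num : 4 ∣ 68)]
  have e2 : ∑ p ∈ S, wn (p % 68) = ((S.filter fun p => NR p).card : ℝ) := by
    rw [← Finset.sum_boole]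
    refine sum_congr rfl fun p _ => ?_
    have h : NR (p % 68) ↔ NR p := by
      unfold NR
      rw [Nat.mod_mod_of_dvd p (by norm_num : 17 ∣ 68)]
    unfold wn
    by_cases h1 : NR p
    · rw [if_pos h1, if_pos (h.2 h1)]
    · rw [if_neg h1, if_neg (mt h.1 h1)]
  rw [e1, e2]

theorem RS_opf {m : ℤ} (hm : m ≠ 0) : RS m = opf m ∨ RS m = insert 2 (opf m) := by
  unfold Pool.Agent.H743.X17.RS Pool.Agent.H468.WM.opf Pool.Agent.H743.X17.Kn
  have h0 : m.natAbs ≠ 0 := Int.natAbs_ne_zero.2 hm
  split_ifs with h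
  · left
    refine (Finset.erase_eq_of_notMem fun h2 => ?_).symm
    have := Nat.dvd_of_mem_primeFactors h2
    omega
  · right
    have e : (4 * m.natAbs).primeFactors = insert 2 m.natAbs.primeFactors := by
      rw [Nat.primeFactors_mul (by norm_num) h0, show (4 : ℕ) = 2 ^ 2 from rfl,
        Nat.primeFactors_prime_pow two_ne_zero Nat.prime_two]
      rfl
    rw [e]
    ext p
    simp only [mem_insert, mem_erase]
    tauto

theorem opf_odd {m : ℤ} {p : ℕ} (hp : p ∈ opf m) : p.Prime ∧ p % 2 = 1 := by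
  unfold Pool.Agent.H468.WM.opf at hp
  obtain ⟨h1, h2⟩ := mem_erase.1 hp
  have h3 := Nat.prime_of_mem_primeFactors h2
  refine ⟨h3, ?_⟩
  rcases h3.eq_two_or_odd with h | h
  · exact absurd h h1
  · exact h

theorem al_opf {m : ℤ} {p : ℕ} (hp : p ∈ opf m) : al m p = 1 ↔ p % 4 = 3 := by
  obtain ⟨h1, h2⟩ := opf_odd hp
  have h3 : p ≠ 2 := by
    rintro rfl
    omega
  unfold Pool.Agent.H743.X17.al Pool.Agent.H743.X17.pd
  rw [if_neg h3]
  have hp0 : 0 < p := h1.pos
  by_cases h4 : p % 4 = 1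
  · rw [if_pos h4, if_neg (by omega)]
    constructor
    · intro h
      exact absurd h (by decide)
    · intro h
      omega
  · rw [if_neg h4, if_pos (by omega)]
    constructor
    · intro _
      omega
    · intro _
      rfl

theorem na_near {m : ℤ} (hm : m ≠ 0) : n3 (opf m) ≤ na m ∧ na m ≤ n3 (opf m) + 1 := by
  have e1 : (opf m).filter (fun q => al m q = 1) = (opf m).filter fun p => p % 4 = 3 :=
    filter_congr fun p hp => al_opf hp
  rcases RS_opf hm with h | h
  · have e2 : na m = n3 (opf m) := by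
      unfold Pool.Agent.H743.X17.na n3
      rw [h, e1]
    omega
  · have e2 : (RS m).filter (fun q => al m q = 1) ⊆ insert 2 ((opf m).filter fun p => p % 4 = 3) := by
      intro p hp
      rw [h, mem_filter, mem_insert] at hp
      rw [mem_insert]
      rcases hp.1 with h5 | h5
      · exact Or.inl h5
      · right
        rw [← e1]
        exact mem_filter.2 ⟨h5, hp.2⟩
    have e3 : (opf m).filter (fun p => p % 4 = 3) ⊆ (RS m).filter (fun q => al m q = 1) := by
      rw [← e1, h]
      exact filter_subset_filter _ (subset_insert _ _)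
    have h4 := card_le_card e2
    have h5 := card_le_card e3
    have h6 := card_insert_le 2 ((opf m).filter fun p => p % 4 = 3)
    unfold Pool.Agent.H743.X17.na n3
    omega

theorem nr_iff {p : ℕ} (hp : p.Prime) (h2 : p % 2 = 1) (h17 : p ≠ 17) : jacobiSym 17 p = 1 ↔ ¬ NR p := by
  have h1 : jacobiSym 17 p = jacobiSym p 17 := by
    have := jacobiSym.quadratic_reciprocity_one_mod_four (a := 17) (b := p) (by norm_num)
      (Nat.odd_iff.2 h2)
    exact_mod_cast this
  have h3 : jacobiSym p 17 = jacobiSym ((p % 17 : ℕ) : ℤ) 17 := by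
    rw [Int.natCast_mod]
    exact jacobiSym.mod_left _ _
  rw [h1, h3]
  have h4 : p % 17 ≠ 0 := by
    intro h
    have h5 : 17 ∣ p := Nat.dvd_of_mod_eq_zero h
    rcases (Nat.dvd_prime hp).1 h5 with h6 | h6
    · omega
    · exact h17 h6.symm
  have h5 : p % 17 < 17 := Nat.mod_lt _ (by norm_num)
  unfold NR
  generalize p % 17 = r at h4 h5 ⊢
  interval_cases r
  · exact absurd rfl h4
  all_goals norm_num

theorem nu_opf {m : ℤ} {p : ℕ} (hp : p ∈ (opf m).erase 17) : nu p = 1 ↔ NR p := by
  obtain ⟨h0, hp⟩ := mem_erase.1 hp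
  obtain ⟨h1, h2⟩ := opf_odd hp
  have h3 : p ≠ 2 := by
    rintro rfl
    omega
  unfold Pool.Agent.H743.X17.nu
  rw [if_neg h3]
  by_cases h : jacobiSym 17 p = 1
  · rw [if_pos h]
    have := (nr_iff h1 h2 h0).1 h
    constructor
    · intro h
      exact absurd h (by decide)
    · intro h
      exact absurd h this
  · rw [if_neg h]
    have := not_not.1 (mt (nr_iff h1 h2 h0).2 h)
    constructor
    · intro _
      exact this
    · intro _
      rfl

theorem nn_eq {m : ℤ} (hm : m ≠ 0) : nn m = n17 (opf m) := by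
  have e1 : ((opf m).erase 17).filter (fun q => nu q = 1) = ((opf m).erase 17).filter fun p => NR p :=
    filter_congr fun p hp => nu_opf hp
  have e2 : ((opf m).erase 17).filter (fun p => NR p) = (opf m).filter fun p => NR p := by
    ext p
    rw [mem_filter, mem_filter, mem_erase]
    constructor
    · exact fun h => ⟨h.1.2, h.2⟩
    · intro h
      refine ⟨⟨?_, h.1⟩, h.2⟩
      rintro rfl
      have := h.2
      unfold NR at this
      omega
  have e3 : ((RS m).erase 17).filter (fun q => nu q = 1) = ((opf m).erase 17).filter fun q => nu q = 1 := by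
    rcases RS_opf hm with h | h
    · rw [h]
    · rw [h]
      ext p
      rw [mem_filter, mem_filter, mem_erase, mem_erase, mem_insert]
      constructor
      · rintro ⟨⟨h1, h2 | h2⟩, h3⟩
        · subst h2
          exact absurd h3 (by decide)
        · exact ⟨⟨h1, h2⟩, h3⟩
      · rintro ⟨⟨h1, h2⟩, h3⟩
        exact ⟨⟨h1, Or.inr h2⟩, h3⟩
  unfold Pool.Agent.H743.X17.nn n17
  rw [e3, e1, e2]

/-- `log₂ #Ш[2^∞]` -/
noncomputable def Lg (j : Fin 3) (m : ℤ) : ℝ := Real.logb 2 (sha2 (Fin.castSucc j) m)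

theorem Lg_eq {m : ℤ} (hA : All m) (j : Fin 3) : Lg j m = (eJ j m : ℝ) - 2 := by
  obtain ⟨-, -, he, hs, -⟩ := hA (Fin.castSucc j)
  unfold Lg
  rw [hs, ← exj]
  push_cast
  rw [← Real.rpow_natCast, Real.logb_rpow (by norm_num) (by norm_num), Nat.cast_sub he]
  norm_num

theorem Lg_near {m : ℤ} (hm : m ≠ 0) (hA : All m) :
    |Lg 0 m - n3 (opf m)| ≤ 5 ∧ |Lg 1 m - n17 (opf m)| ≤ 4 ∧ |Lg 2 m - n17 (opf m)| ≤ 4 := by
  obtain ⟨h1, h2⟩ := na_near hm
  have h1' : (n3 (opf m) : ℝ) ≤ na m := by exact_mod_cast h1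
  have h2' : (na m : ℝ) ≤ n3 (opf m) + 1 := by exact_mod_cast h2
  have h0 := eJ_near 0 m
  have h3 := eJ_near 1 m
  have h4 := eJ_near 2 m
  rw [if_pos rfl] at h0
  rw [if_neg (by decide), nn_eq hm] at h3
  rw [if_neg (by decide), nn_eq hm] at h4
  rw [Lg_eq hA, Lg_eq hA, Lg_eq hA]
  rw [abs_le] at h0 h3 h4
  refine ⟨?_, ?_, ?_⟩ <;> rw [abs_le] <;> constructor <;>
    linarith [h0.1, h0.2, h3.1, h3.2, h4.1, h4.2]

end Pool.Agent.H468.WN
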