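import Pool.Agent.H468.WN.Mer
import Pool.Agent.H743.X17.IsoFin

/-!
# The limit laws for all squarefree integers, with local conditions
-/

set_option autoImplicit false
set_option linter.all false

open scoped Classical

namespace Pool.Agent.H468.WN

open Finset Filter Topology
open Pool.Agent.H468.WM (LL LL_top LL_close filter_card_congr opf opf_eq Wt cnt HGW hglW)
open Pool.Agent.H998_EK (Phi Phi_nonneg Phi_le_one)
open Pool.Agent.H468.WV
open Pool.Agent.N919.BS (NN NS Rt17 NS_eq)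
open Pool.Agent.N855.GF.Lc17 (Lc lc_and lc_root lc_Loc Loc low_P)
open Pool.Agent.N916.MO (G17)
open Pool.Agent.Y703.CQ (c2)
open Pool.Agent.H743.X17 (num num_eq Rt Sys parts crit' half num_close ES mem_ES card_ES Exc)

theorem Lc.up {m M : ℕ} {Q : ℤ → Prop} (h : Lc m Q) (hM : m ∣ M) : Lc M Q := by
  intro s k a b hs hk ha hb ha2 hb2 hab
  refine h s k a b hs hk ha hb ha2 hb2 ?_
  rw [← Nat.mod_mod_of_dvd a hM, ← Nat.mod_mod_of_dvd b hM, hab]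

theorem low_loc (inf : Prop) (S : Finset ℕ) (hS : ∀ p ∈ S, p.Prime) {d₀ : ℤ} (hd : Squarefree d₀)
    (h1 : Rt d₀) : ∃ (c : ℝ) (X₀ : ℕ), 0 < c ∧ ∀ X : ℕ, X₀ ≤ X →
    c * X ≤ (num (fun d => Rt d ∧ Loc inf S d₀ d) X : ℝ) := by
  obtain ⟨m, h2, h3, h4⟩ := lc_Loc inf S hS d₀
  have hQ : Lc m fun d => Rt17 d ∧ Loc inf S d₀ d :=
    lc_and (lc_root (Dvd.dvd.trans (by norm_num) h2)) h4
  have h5 : Loc inf S d₀ d₀ := by
    refine ⟨fun _ => mul_self_pos.2 hd.ne_zero, fun p _ _ => ⟨(d₀ : ℚ_[p]), ?_⟩⟩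
    push_cast
    ring
  obtain ⟨c, X₀, hc, h6⟩ := low_P (Dvd.dvd.trans (by norm_num) h2) h3 hQ hd ⟨h1, h5⟩
  exact ⟨c, X₀, hc, fun X hX => (h6 X hX).2⟩

/-- **independence of the criterion and of the numbers of the prime factors in the classes** -/
theorem indep_loc {P : ℤ → Prop} (hP : ∀ d, Squarefree d → ¬ Exc d → (P d ↔ Sys d)) (inf : Prop)
    (S : Finset ℕ) (hS : ∀ p ∈ S, p.Prime) (d₀ : ℤ) {q : ℕ} (hq : 0 < q) (ε : ℝ) (hε : 0 < ε) :
    ∃ X₀ : ℕ, ∀ X : ℕ, X₀ ≤ X → ∀ W : Finset ℕ → Prop, Wt q W →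
      |(num (fun d => (Rt d ∧ Loc inf S d₀ d) ∧ P d ∧ W (opf d)) X : ℝ) -
        c2 * num (fun d => (Rt d ∧ Loc inf S d₀ d) ∧ W (opf d)) X| ≤ ε * X := by
  obtain ⟨m, h2, h3, h4⟩ := lc_Loc inf S hS d₀
  obtain ⟨X₁, h5⟩ := close_NSW (hglW (m := m * q) (h2.trans (Dvd.intro _ rfl)) (Nat.mul_pos h3 hq)
    (Lc.up h4 (Dvd.intro _ rfl))) (ε / 2) (by positivity)
  obtain ⟨X₂, hX₂⟩ := exists_nat_gt (8 / ε)
  refine ⟨X₁ + X₂, fun X hX W hW => ?_⟩
  have h6 := h5 X (by omega) W (wt_dvd (Nat.mul_pos h3 hq) (Dvd.intro_left _ rfl) hW)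
  have k1 : num (fun d => (Rt d ∧ Loc inf S d₀ d) ∧ P d ∧ W (opf d)) X ≤
      num (fun d => (Rt17 d ∧ Loc inf S d₀ d) ∧ (G17 d ∧ W (opf d))) X + 4 := by
    rw [← card_ES]
    refine num_close ES (fun d hd h => ?_) X
    rintro ⟨a1, a2, a3⟩
    have h8 := (crit' (P := Sys) parts Iff.rfl hd).1 ((hP d hd fun h' => h (mem_ES.2 h')).1 a2)
    exact ⟨⟨h8.1, a1.2⟩, h8.2, a3⟩
  have k2 : num (fun d => (Rt17 d ∧ Loc inf S d₀ d) ∧ (G17 d ∧ W (opf d))) X ≤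
      num (fun d => (Rt d ∧ Loc inf S d₀ d) ∧ P d ∧ W (opf d)) X + 4 := by
    rw [← card_ES]
    refine num_close ES (fun d hd h => ?_) X
    rintro ⟨a1, a2, a3⟩
    exact ⟨a1, (hP d hd fun h' => h (mem_ES.2 h')).2 ((crit' (P := Sys) parts Iff.rfl hd).2 ⟨a1.1, a2⟩), a3⟩
  have k1' : (num (fun d => (Rt d ∧ Loc inf S d₀ d) ∧ P d ∧ W (opf d)) X : ℝ) ≤
      num (fun d => (Rt17 d ∧ Loc inf S d₀ d) ∧ (G17 d ∧ W (opf d))) X + 4 := by exact_mod_cast k1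
  have k2' : (num (fun d => (Rt17 d ∧ Loc inf S d₀ d) ∧ (G17 d ∧ W (opf d))) X : ℝ) ≤
      num (fun d => (Rt d ∧ Loc inf S d₀ d) ∧ P d ∧ W (opf d)) X + 4 := by exact_mod_cast k2
  have hX2 : (X₂ : ℝ) ≤ X := by exact_mod_cast (by omega : X₂ ≤ X)
  have hX3 : 8 / ε < X := by linarith
  rw [div_lt_iff₀ hε] at hX3
  have h7 : |(num (fun d => (Rt17 d ∧ Loc inf S d₀ d) ∧ (G17 d ∧ W (opf d))) X : ℝ) -
      c2 * num (fun d => (Rt d ∧ Loc inf S d₀ d) ∧ W (opf d)) X| ≤ ε / 2 * X := h6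
  rw [abs_le] at h7 ⊢
  constructor <;> linarith [h7.1, h7.2]

theorem opf_neg (d : ℤ) : opf (-d) = opf d := by
  unfold Pool.Agent.H468.WM.opf
  rw [Int.natAbs_neg]

theorem num_split {P Q R : ℤ → Prop} (h : ∀ d, R d ↔ (P d ∨ Q d)) (hd : ∀ d, P d → Q d → False)
    (X : ℕ) : num R X = num P X + num Q X := by
  unfold Pool.Agent.H743.X17.num
  rw [← card_union_of_disjoint]
  · congr 1
    ext d
    simp only [mem_filter, mem_union, h]
    tauto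
  · rw [Finset.disjoint_left]
    intro d ha hb
    exact hd d (mem_filter.1 ha).2.2 (mem_filter.1 hb).2.2

theorem num_neg {P Q : ℤ → Prop} (h : ∀ d, Squarefree d → P d → Q (-d))
    (h' : ∀ d, Squarefree d → Q d → P (-d)) (X : ℕ) : num P X = num Q X := by
  unfold Pool.Agent.H743.X17.num
  refine card_bij' (fun d _ => -d) (fun d _ => -d) ?_ ?_ (fun d _ => neg_neg d) fun d _ => neg_neg d
  · intro d hd
    rw [mem_filter, mem_Icc] at hd ⊢
    obtain ⟨⟨a1, a2⟩, a3, a4⟩ := hd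
    exact ⟨⟨by omega, by omega⟩, fun x hx => a3 x ((dvd_neg).1 hx), h d a3 a4⟩
  · intro d hd
    rw [mem_filter, mem_Icc] at hd ⊢
    obtain ⟨⟨a1, a2⟩, a3, a4⟩ := hd
    exact ⟨⟨by omega, by omega⟩, fun x hx => a3 x ((dvd_neg).1 hx), h' d a3 a4⟩

/-- half of the integers with a condition on `opf` have root number `1` -/
theorem half_W (W : Finset ℕ → Prop) (X : ℕ) :
    2 * num (fun d => Rt d ∧ W (opf d)) X = num (fun d => W (opf d)) X := by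
  have h1 : num (fun d => W (opf d)) X = num (fun d => Rt d ∧ W (opf d)) X +
      num (fun d => ¬ Rt d ∧ W (opf d)) X :=
    num_split (fun d => by tauto) (fun d a b => b.1 a.1) X
  have h2 : num (fun d => ¬ Rt d ∧ W (opf d)) X = num (fun d => Rt d ∧ W (opf d)) X := by
    refine num_neg (fun d hd h => ?_) (fun d hd h => ?_) X
    · have h0 : -d ≠ 0 := neg_ne_zero.2 hd.ne_zero
      refine ⟨(Pool.Agent.N919.BS.root17.one (-d) h0).2 (by rw [neg_neg]; exact h.1), ?_⟩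
      rw [opf_neg]
      exact h.2
    · refine ⟨(Pool.Agent.N919.BS.root17.one d hd.ne_zero).1 h.1, ?_⟩
      rw [opf_neg]
      exact h.2
  rw [h1, h2]
  ring

/-- independence, all integers -/
theorem indep_all {P : ℤ → Prop} (hP : ∀ d, Squarefree d → ¬ Exc d → (P d ↔ Sys d))
    {q : ℕ} (hq : 0 < q) (ε : ℝ) (hε : 0 < ε) :
    ∃ X₀ : ℕ, ∀ X : ℕ, X₀ ≤ X → ∀ W : Finset ℕ → Prop, Wt q W →
      |(num (fun d => P d ∧ W (opf d)) X : ℝ) - c2 / 2 * num (fun d => W (opf d)) X| ≤ ε * X := by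
  obtain ⟨X₀, h⟩ := indep_loc hP False ∅ (fun p hp => absurd hp (notMem_empty p)) 1 hq (ε / 2)
    (by positivity)
  obtain ⟨X₂, hX₂⟩ := exists_nat_gt (8 / ε)
  refine ⟨X₀ + X₂, fun X hX W hW => ?_⟩
  have hL : ∀ d, Loc False ∅ 1 d := fun d => ⟨fun h => h.elim, fun p _ hp => absurd hp (notMem_empty p)⟩
  have h1 := h X (by omega) W hW
  have e1 : num (fun d => (Rt d ∧ Loc False ∅ 1 d) ∧ W (opf d)) X = num (fun d => Rt d ∧ W (opf d)) X :=
    NS_congr (fun d => ⟨fun h => ⟨h.1.1, h.2⟩, fun h => ⟨⟨h.1, hL d⟩, h.2⟩⟩) X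
  have k1 : num (fun d => (Rt d ∧ Loc False ∅ 1 d) ∧ P d ∧ W (opf d)) X ≤
      num (fun d => P d ∧ W (opf d)) X + 4 := by
    rw [← card_ES]
    exact num_close ES (fun d hd h h' => h'.2) X
  have k2 : num (fun d => P d ∧ W (opf d)) X ≤
      num (fun d => (Rt d ∧ Loc False ∅ 1 d) ∧ P d ∧ W (opf d)) X + 4 := by
    rw [← card_ES]
    refine num_close ES (fun d hd h => ?_) X
    rintro ⟨a2, a3⟩
    have h8 := (crit' (P := Sys) parts Iff.rfl hd).1 ((hP d hd fun h' => h (mem_ES.2 h')).1 a2)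
    exact ⟨⟨h8.1, hL d⟩, a2, a3⟩
  have k1' : (num (fun d => (Rt d ∧ Loc False ∅ 1 d) ∧ P d ∧ W (opf d)) X : ℝ) ≤
      num (fun d => P d ∧ W (opf d)) X + 4 := by exact_mod_cast k1
  have k2' : (num (fun d => P d ∧ W (opf d)) X : ℝ) ≤
      num (fun d => (Rt d ∧ Loc False ∅ 1 d) ∧ P d ∧ W (opf d)) X + 4 := by exact_mod_cast k2
  have e2 : (num (fun d => W (opf d)) X : ℝ) = 2 * num (fun d => Rt d ∧ W (opf d)) X := by
    rw [← half_W W X]
    push_cast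
    ring
  rw [e1] at h1
  have hX2 : (X₂ : ℝ) ≤ X := by exact_mod_cast (by omega : X₂ ≤ X)
  have hX3 : 8 / ε < X := by linarith
  rw [div_lt_iff₀ hε] at hX3
  have e3 : c2 / 2 * (2 * (num (fun d => Rt d ∧ W (opf d)) X : ℝ)) =
      c2 * num (fun d => Rt d ∧ W (opf d)) X := by ring
  rw [e2, e3]
  rw [abs_le] at h1 ⊢
  constructor <;> linarith [h1.1, h1.2]

/-! ### limit laws -/

variable {ι : Type} [Fintype ι] {f : ι → ℕ → ℝ} {mu lam : ι → ℝ} {g : ι → Finset ℕ → ℝ}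

/-- the thresholds -/
noncomputable def th (mu lam y : ι → ℝ) (X : ℕ) (i : ι) : ℝ :=
  mu i * LL X + y i * (√(lam i) * √(LL X))

theorem near_th (mu lam y : ι → ℝ) {δ K : ℝ} {X : ℕ} (h : |K| ≤ δ * √(LL X)) :
    Near mu lam y δ X (fun i => th mu lam y X i + K) := by
  intro i
  unfold th
  rw [add_sub_cancel_left]
  exact h

/-- **the limit law in a local class**, for a property between two bounds -/
theorem clt_loc (hf : Vec f mu lam) (hg : ∀ i n, f i n = g i n.primeFactors)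
    (hg' : ∀ i S S', cnt 136 S = cnt 136 S' → g i S = g i S') {K : ℝ} (hK : 0 < K)
    {F : (ι → ℝ) → ℤ → Prop}
    (h1 : ∀ (T : ι → ℝ) d, Squarefree d → ¬ Exc d → Sys d → Eg g (fun i => T i + -K) (opf d) → F T d)
    (h2 : ∀ (T : ι → ℝ) d, Squarefree d → ¬ Exc d → F T d → Sys d ∧ Eg g (fun i => T i + K) (opf d))
    (inf : Prop) (S : Finset ℕ) (hS : ∀ p ∈ S, p.Prime) {d₀ : ℤ} (hd : Squarefree d₀) (hr : Rt d₀)
    (y : ι → ℝ) : Tendsto (fun X : ℕ =>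
      (num (fun d => (Rt d ∧ Loc inf S d₀ d) ∧ F (th mu lam y X) d) X : ℝ) /
      (num (fun d => Rt d ∧ Loc inf S d₀ d) X : ℝ)) atTop (𝓝 (c2 * kap y)) := by
  obtain ⟨c, X₀, hc, hlow⟩ := low_loc inf S hS hd hr
  obtain ⟨m, g2, g3, g4⟩ := lc_Loc inf S hS d₀
  rw [Metric.tendsto_atTop]
  intro ε hε
  obtain ⟨δ, X₁, hδ, h3⟩ := clt_NS hf hg hg' g2 g3 g4 y (ε * c / 8) (by positivity)
  obtain ⟨X₂, hX₂⟩ := eventually_atTop.1 (LL_top.eventually (eventually_ge_atTop ((K / δ) ^ 2)))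
  obtain ⟨X₃, hX₃⟩ := exists_nat_gt (64 / (c * ε))
  refine ⟨X₀ + X₁ + X₂ + X₃ + 1, fun X hX => ?_⟩
  have hL : (K / δ) ^ 2 ≤ LL X := hX₂ X (by omega)
  have hs : K / δ ≤ √(LL X) := Real.le_sqrt_of_sq_le hL
  have hs2 : K ≤ δ * √(LL X) := by
    rw [div_le_iff₀ hδ] at hs
    linarith
  obtain ⟨T, hT⟩ : ∃ T : ι → ℝ, T = th mu lam y X := ⟨_, rfl⟩
  have n1 : Near mu lam y δ X (fun i => T i + -K) := by
    rw [hT]
    exact near_th mu lam y (by rw [abs_neg, abs_of_pos hK]; exact hs2)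
  have n2 : Near mu lam y δ X (fun i => T i + K) := by
    rw [hT]
    exact near_th mu lam y (by rw [abs_of_pos hK]; exact hs2)
  rw [← hT]
  have a1 := h3 X (by omega) (fun i => T i + -K) n1
    (fun d => (Rt17 d ∧ Loc inf S d₀ d) ∧ (G17 d ∧ Eg g (fun i => T i + -K) (opf d))) fun _ => Iff.rfl
  have a2 := h3 X (by omega) (fun i => T i + K) n2
    (fun d => (Rt17 d ∧ Loc inf S d₀ d) ∧ (G17 d ∧ Eg g (fun i => T i + K) (opf d))) fun _ => Iff.rfl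
  have b1 : num (fun d => (Rt17 d ∧ Loc inf S d₀ d) ∧ (G17 d ∧ Eg g (fun i => T i + -K) (opf d))) X ≤
      num (fun d => (Rt d ∧ Loc inf S d₀ d) ∧ F T d) X + 4 := by
    rw [← card_ES]
    refine num_close ES (fun d hd h => ?_) X
    rintro ⟨u1, u2, u3⟩
    exact ⟨u1, h1 T d hd (fun h' => h (mem_ES.2 h'))
      ((crit' (P := Sys) parts Iff.rfl hd).2 ⟨u1.1, u2⟩) u3⟩
  have b2 : num (fun d => (Rt d ∧ Loc inf S d₀ d) ∧ F T d) X ≤
      num (fun d => (Rt17 d ∧ Loc inf S d₀ d) ∧ (G17 d ∧ Eg g (fun i => T i + K) (opf d))) X + 4 := by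
    rw [← card_ES]
    refine num_close ES (fun d hd h => ?_) X
    rintro ⟨u1, u2⟩
    obtain ⟨u3, u4⟩ := h2 T d hd (fun h' => h (mem_ES.2 h')) u2
    exact ⟨u1, ((crit' (P := Sys) parts Iff.rfl hd).1 u3).2, u4⟩
  have hlo := hlow X (by omega)
  have c1 : (num (fun d => (Rt17 d ∧ Loc inf S d₀ d) ∧ (G17 d ∧ Eg g (fun i => T i + -K) (opf d))) X : ℝ) ≤
      (num (fun d => (Rt d ∧ Loc inf S d₀ d) ∧ F T d) X : ℝ) + 4 := by exact_mod_cast b1
  have c3 : (num (fun d => (Rt d ∧ Loc inf S d₀ d) ∧ F T d) X : ℝ) ≤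
      (num (fun d => (Rt17 d ∧ Loc inf S d₀ d) ∧ (G17 d ∧ Eg g (fun i => T i + K) (opf d))) X : ℝ) + 4 := by
    exact_mod_cast b2
  set A : ℝ := (num (fun d => (Rt17 d ∧ Loc inf S d₀ d) ∧
    (G17 d ∧ Eg g (fun i => T i + -K) (opf d))) X : ℝ) with hA
  set B : ℝ := (num (fun d => (Rt17 d ∧ Loc inf S d₀ d) ∧
    (G17 d ∧ Eg g (fun i => T i + K) (opf d))) X : ℝ) with hB
  set N : ℝ := (num (fun d => Rt d ∧ Loc inf S d₀ d) X : ℝ) with hN
  have a1' : |A - c2 * kap y * N| ≤ ε * c / 8 * X := a1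
  have a2' : |B - c2 * kap y * N| ≤ ε * c / 8 * X := a2
  have hX3 : (X₃ : ℝ) ≤ X := by exact_mod_cast (by omega : X₃ ≤ X)
  have hX5 : 64 / (c * ε) < X := by linarith
  rw [div_lt_iff₀ (by positivity)] at hX5
  have hXp : 0 < (X : ℝ) := by exact_mod_cast (by omega : 0 < X)
  have hU0 : 0 < N := by
    have : 0 < c * X := by positivity
    linarith
  rw [Real.dist_eq, div_sub' hU0.ne', abs_div, abs_of_pos hU0, div_lt_iff₀ hU0]
  have key : ε * c / 8 * X + 4 < ε * N := by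
    have h5 : ε * (c * X) ≤ ε * N := mul_le_mul_of_nonneg_left hlo hε.le
    linarith
  rw [abs_le] at a1' a2'
  rw [abs_lt]
  constructor
  · linarith [a1'.1, a2'.1]
  · linarith [a1'.2, a2'.2]

theorem clt_all (hf : Vec f mu lam) (hg : ∀ i n, f i n = g i n.primeFactors)
    (hg' : ∀ i S S', cnt 136 S = cnt 136 S' → g i S = g i S') {K : ℝ} (hK : 0 < K)
    {F : (ι → ℝ) → ℤ → Prop}
    (h1 : ∀ (T : ι → ℝ) d, Squarefree d → ¬ Exc d → Sys d → Eg g (fun i => T i + -K) (opf d) → F T d)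
    (h2 : ∀ (T : ι → ℝ) d, Squarefree d → ¬ Exc d → F T d → Sys d ∧ Eg g (fun i => T i + K) (opf d))
    (y : ι → ℝ) : Tendsto (fun X : ℕ => (num (F (th mu lam y X)) X : ℝ) /
      (num (fun _ => True) X : ℝ)) atTop (𝓝 (c2 / 2 * kap y)) := by
  have hL : ∀ d, Loc False ∅ 1 d := fun d => ⟨fun h => h.elim, fun p _ hp => absurd hp (notMem_empty p)⟩
  have h3 := (clt_loc hf hg hg' hK h1 h2 False ∅ (fun p hp => absurd hp (notMem_empty p))
    squarefree_one (Or.inl ⟨one_pos, jacobiSym.one_left 17⟩) y).mul_const (1 / 2)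
  have e : c2 * kap y * (1 / 2) = c2 / 2 * kap y := by ring
  rw [e] at h3
  have e1 : ∀ X, num (fun d => Rt d ∧ Loc False ∅ 1 d) X = num Rt X := fun X =>
    NS_congr (fun d => ⟨fun h => h.1, fun h => ⟨h, hL d⟩⟩) X
  have h4 : Tendsto (fun X : ℕ => (num (fun d => (Rt d ∧ Loc False ∅ 1 d) ∧ F (th mu lam y X) d) X : ℝ) /
      (num (fun _ => True) X : ℝ)) atTop (𝓝 (c2 / 2 * kap y)) := by
    refine h3.congr fun X => ?_
    rw [e1 X, ← half X]
    push_cast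
    rw [mul_comm (2 : ℝ), ← div_div]
    ring
  refine Pool.Agent.H743.X17.lim_closeN 4 h4 (fun X => ?_) (fun X => ?_) Pool.Agent.H743.X17.top_all
  · rw [← card_ES]
    exact num_close ES (fun d hd h h' => h'.2) X
  · rw [← card_ES]
    refine num_close ES (fun d hd h h' => ?_) X
    have h8 := (crit' (P := Sys) parts Iff.rfl hd).1 (h2 _ d hd (fun h'' => h (mem_ES.2 h'')) h').1
    exact ⟨⟨h8.1, hL d⟩, h'⟩

end Pool.Agent.H468.WN
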