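import Pool.Agent.H468.WN.Ns
import Pool.Graph.R_seed8.Y405.CQ.MER

/-!
# Additive functions given by weights of the residue classes
-/

set_option autoImplicit false
set_option linter.all false

open scoped Classical

namespace Pool.Agent.H468.WN

open Finset Filter Topology
open Pool.Agent.H468.WM (LL LL_top LL_close filter_card_congr opf opf_eq Wt cnt HGW hglW)
open Pool.Agent.H998_EK (Am)
open Pool.Agent.H468.WV

/-- the sum of the weights of the primes in a finite set -/
noncomputable def gw {ι : Type} (q : ℕ) (w : ι → ℕ → ℝ) (i : ι) (S : Finset ℕ) : ℝ := ∑ p ∈ S, w i (p % q)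

/-- the additive function -/
noncomputable def fw {ι : Type} (q : ℕ) (w : ι → ℕ → ℝ) (i : ι) (n : ℕ) : ℝ := gw q w i n.primeFactors

/-- the average over the invertible classes -/
noncomputable def av (q : ℕ) (u : ℕ → ℝ) : ℝ :=
  (∑ a ∈ (range q).filter fun a => a.Coprime q, u a) / (Nat.totient q : ℝ)

theorem fw_add {ι : Type} (q : ℕ) (w : ι → ℕ → ℝ) (i : ι) (m n : ℕ) (hm : 1 ≤ m) (hn : 1 ≤ n)
    (h : Nat.Coprime m n) : fw q w i (m * n) = fw q w i m + fw q w i n := by
  unfold fw gw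
  rw [Nat.primeFactors_mul (by omega) (by omega), sum_union h.disjoint_primeFactors]

theorem fw_prime {ι : Type} (q : ℕ) (w : ι → ℕ → ℝ) (i : ι) {p : ℕ} (hp : p.Prime) :
    fw q w i p = w i (p % q) := by
  unfold fw gw
  rw [Nat.Prime.primeFactors hp, sum_singleton]

/-- **Mertens with weights** -/
theorem mer_w {q : ℕ} (hq : 1 ≤ q) (u : ℕ → ℝ) : ∃ C : ℝ, ∀ N : ℕ, 3 ≤ N →
    |∑ p ∈ (Icc 1 N).filter Nat.Prime, u (p % q) / p - av q u * LL N| ≤ C := by
  have h1 : ∀ a : ℕ, ∃ C : ℝ, 0 ≤ C ∧ (a < q → a.Coprime q → ∀ x : ℕ, 3 ≤ x →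
      |∑ p ∈ (Icc 1 x).filter (fun p => p.Prime ∧ p % q = a), (1 : ℝ) / p -
        1 / (Nat.totient q : ℝ) * Real.log (Real.log x)| ≤ C) := by
    intro a
    by_cases h : a < q ∧ a.Coprime q
    · obtain ⟨C, h0, h1⟩ := Pool.Agent.Y405.CQ.mertens_ap q hq a h.1 h.2
      exact ⟨C, h0, fun _ _ => h1⟩
    · exact ⟨0, le_rfl, fun a b => absurd ⟨a, b⟩ h⟩
  choose C hC0 hC using h1
  refine ⟨∑ a ∈ (range q).filter (fun a => a.Coprime q), |u a| * C a +
    ∑ a ∈ (range q).filter (fun a => ¬ a.Coprime q), |u a| * (q + 1 : ℕ), fun N hN => ?_⟩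
  have e1 : ∑ p ∈ (Icc 1 N).filter Nat.Prime, u (p % q) / p =
      ∑ a ∈ range q, u a * ∑ p ∈ (Icc 1 N).filter (fun p => p.Prime ∧ p % q = a), (1 : ℝ) / p := by
    rw [← sum_fiberwise_of_maps_to (s := (Icc 1 N).filter Nat.Prime) (t := range q)
      (g := fun p => p % q) fun p _ => mem_range.2 (Nat.mod_lt p hq)]
    refine sum_congr rfl fun a _ => ?_
    rw [filter_filter, mul_sum]
    refine sum_congr rfl fun p hp => ?_
    rw [(mem_filter.1 hp).2.2]
    ring
  have e2 : av q u * LL N = ∑ a ∈ (range q).filter (fun a => a.Coprime q),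
      u a * (1 / (Nat.totient q : ℝ) * Real.log (Real.log N)) := by
    unfold av Pool.Agent.H468.WM.LL
    rw [← sum_mul]
    ring
  rw [e1, e2, ← sum_filter_add_sum_filter_not (range q) (fun a => a.Coprime q)]
  have e3 : ∀ A B D : ℝ, A + B - D = (A - D) + B := fun A B D => by ring
  rw [e3, ← sum_sub_distrib]
  refine (abs_add_le _ _).trans (add_le_add ((abs_sum_le_sum_abs _ _).trans (sum_le_sum fun a ha => ?_))
    ((abs_sum_le_sum_abs _ _).trans (sum_le_sum fun a ha => ?_)))
  · rw [mem_filter, mem_range] at ha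
    rw [← mul_sub, abs_mul]
    exact mul_le_mul_of_nonneg_left (hC a ha.1 ha.2 N hN) (abs_nonneg _)
  · rw [mem_filter, mem_range] at ha
    rw [abs_mul]
    refine mul_le_mul_of_nonneg_left ?_ (abs_nonneg _)
    have hsub : (Icc 1 N).filter (fun p => p.Prime ∧ p % q = a) ⊆ range (q + 1) := by
      intro p hp
      obtain ⟨h1, h2, h3⟩ := mem_filter.1 hp
      have h4 : p ∣ q := by
        by_contra h5
        have h6 : Nat.Coprime p q := (Nat.Prime.coprime_iff_not_dvd h2).2 h5
        apply ha.2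
        rw [← h3]
        unfold Nat.Coprime
        rw [← Nat.gcd_rec, Nat.gcd_comm]
        exact h6
      exact mem_range.2 (Nat.lt_succ_of_le (Nat.le_of_dvd hq h4))
    have h0 : ∀ p ∈ (Icc 1 N).filter (fun p => p.Prime ∧ p % q = a), 0 ≤ (1 : ℝ) / p := fun p _ => by
      positivity
    rw [abs_of_nonneg (sum_nonneg h0)]
    have h5 : ∑ p ∈ (Icc 1 N).filter (fun p => p.Prime ∧ p % q = a), (1 : ℝ) / p ≤
        ∑ p ∈ (Icc 1 N).filter (fun p => p.Prime ∧ p % q = a), (1 : ℝ) := by
      refine sum_le_sum fun p hp => ?_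
      have h6 : (1 : ℝ) ≤ p := by exact_mod_cast (mem_Icc.1 (mem_filter.1 hp).1).1
      rw [div_le_one (by linarith)]
      exact h6
    refine h5.trans ?_
    rw [sum_const, nsmul_eq_mul, mul_one]
    have h7 := card_le_card hsub
    rw [card_range] at h7
    exact_mod_cast h7

/-- the family -/
theorem vec_w {ι : Type} [Fintype ι] {q : ℕ} (hq : 1 ≤ q) {w : ι → ℕ → ℝ} {mu lam : ι → ℝ}
    (h1 : ∀ i, av q (w i) = mu i) (h2 : ∀ i j, av q (fun a => w i a * w j a) = if i = j then lam i else 0)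
    (h3 : ∃ l : ℝ, 0 < l ∧ ∀ i, l ≤ lam i) : Vec (fw q w) mu lam := by
  refine ⟨fw_add q w, ?_, h3, ?_, ?_⟩
  · refine ⟨∑ i, ∑ a ∈ range q, |w i a|, sum_nonneg fun i _ => sum_nonneg fun a _ => abs_nonneg _,
      fun i p hp => ?_⟩
    rw [fw_prime q w i hp]
    refine le_trans ?_ (single_le_sum (f := fun i => ∑ a ∈ range q, |w i a|)
      (fun i _ => sum_nonneg fun a _ => abs_nonneg _) (mem_univ i))
    exact single_le_sum (f := fun a => |w i a|) (fun a _ => abs_nonneg _)
      (mem_range.2 (Nat.mod_lt p hq))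
  · have h4 : ∀ i, ∃ C : ℝ, ∀ N : ℕ, 3 ≤ N → |Am (fw q w i) N - mu i * LL N| ≤ C := by
      intro i
      obtain ⟨C, hC⟩ := mer_w hq (w i)
      refine ⟨C, fun N hN => ?_⟩
      have e : Am (fw q w i) N = ∑ p ∈ (Icc 1 N).filter Nat.Prime, w i (p % q) / p := by
        unfold Pool.Agent.H998_EK.Am
        exact sum_congr rfl fun p hp => by rw [fw_prime q w i (mem_filter.1 hp).2]
      rw [e, ← h1 i]
      exact hC N hN
    choose C hC using h4
    refine ⟨∑ i, |C i|, fun N hN i => (hC i N hN).trans ((le_abs_self _).trans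
      (single_le_sum (f := fun i => |C i|) (fun i _ => abs_nonneg _) (mem_univ i)))⟩
  · have h4 : ∀ i j, ∃ C : ℝ, ∀ N : ℕ, 3 ≤ N → |∑ p ∈ (Icc 1 N).filter Nat.Prime,
        fw q w i p * fw q w j p / p - (if i = j then lam i * LL N else 0)| ≤ C := by
      intro i j
      obtain ⟨C, hC⟩ := mer_w hq fun a => w i a * w j a
      refine ⟨C, fun N hN => ?_⟩
      have e : ∑ p ∈ (Icc 1 N).filter Nat.Prime, fw q w i p * fw q w j p / p =
          ∑ p ∈ (Icc 1 N).filter Nat.Prime, w i (p % q) * w j (p % q) / p :=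
        sum_congr rfl fun p hp => by
          rw [fw_prime q w i (mem_filter.1 hp).2, fw_prime q w j (mem_filter.1 hp).2]
      have e2 : (if i = j then lam i * LL N else 0) = av q (fun a => w i a * w j a) * LL N := by
        rw [h2 i j]
        split_ifs
        · rfl
        · rw [zero_mul]
      rw [e, e2]
      exact hC N hN
    choose C hC using h4
    refine ⟨∑ i, ∑ j, |C i j|, fun N hN i j => (hC i j N hN).trans ((le_abs_self _).trans ?_)⟩
    refine le_trans ?_ (single_le_sum (f := fun i => ∑ j, |C i j|)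
      (fun i _ => sum_nonneg fun j _ => abs_nonneg _) (mem_univ i))
    exact single_le_sum (f := fun j => |C i j|) (fun j _ => abs_nonneg _) (mem_univ j)

/-- the weights depend on the numbers of the primes in the classes -/
theorem gw_cnt {ι : Type} {q : ℕ} (hq : 0 < q) (w : ι → ℕ → ℝ) (i : ι) (S S' : Finset ℕ)
    (h : cnt q S = cnt q S') : gw q w i S = gw q w i S' := by
  have key : ∀ S : Finset ℕ, gw q w i S = ∑ a ∈ range q, (cnt q S a : ℝ) * w i a := by
    intro S
    unfold gw Pool.Agent.H468.WM.cnt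
    rw [← sum_fiberwise_of_maps_to (s := S) (t := range q) (g := fun p => p % q)
      fun p _ => mem_range.2 (Nat.mod_lt p hq)]
    refine sum_congr rfl fun a _ => ?_
    rw [card_eq_sum_ones, Nat.cast_sum, sum_mul]
    refine sum_congr rfl fun p hp => ?_
    rw [(mem_filter.1 hp).2]
    simp
  rw [key S, key S', h]

end Pool.Agent.H468.WN
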