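import Pool.Agent.H468.WM.Ek3
import Pool.Agent.H468.WV.Ekv

/-!
# The joint Erdős–Kac theorem and the criterion for all squarefree integers
-/

set_option autoImplicit false
set_option linter.all false

open scoped Classical

namespace Pool.Agent.H468.WN

open Finset Filter Topology
open Pool.Agent.H468.WM (LL LL_top LL_close filter_card_congr opf opf_eq Wt cnt HGW hglW)
open Pool.Agent.H468.WV
open Pool.Agent.N919.BS (NN NS NF HG Rt17 NS_eq core)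
open Pool.Agent.N855.GF.Lc17 (Lc KQ mem_KQ lc_and lc_root)
open Pool.Agent.N916.MO (G17)
open Pool.Agent.Y703.CQ (c2)

variable {ι : Type} [Fintype ι] {f : ι → ℕ → ℝ} {mu lam : ι → ℝ} {g : ι → Finset ℕ → ℝ}

/-- the event, for a finite set of primes -/
def Eg (g : ι → Finset ℕ → ℝ) (T : ι → ℝ) (S : Finset ℕ) : Prop := ∀ i, g i S ≤ T i

theorem NS_congr {P Q : ℤ → Prop} (h : ∀ d, P d ↔ Q d) (X : ℕ) : NS P X = NS Q X := by
  have : P = Q := funext fun d => propext (h d)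
  rw [this]

/-- Erdős–Kac in a class of integers `s k M` -/
theorem ek_NN (hf : Vec f mu lam) (hg : ∀ i n, f i n = g i n.primeFactors)
    {m : ℕ} (h136 : 136 ∣ m) (hm : 0 < m) {P : ℤ → Prop} (hP : Lc m P) {s : ℤ} {k r : ℕ}
    (hs : s = 1 ∨ s = -1) (hk : k = 1 ∨ k = 2) (hr : r = 1 ∨ r = 3) (y : ι → ℝ) (ε : ℝ) (hε : 0 < ε) :
    ∃ (δ : ℝ) (Y₀ : ℕ), 0 < δ ∧ ∀ Y : ℕ, Y₀ ≤ Y → ∀ T : ι → ℝ, Near mu lam y δ Y T →
      ∀ P' : ℤ → Prop, (∀ d, P' d ↔ (P d ∧ Eg g T (opf d))) →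
      |(NN P' s k r Y : ℝ) - kap y * NN P s k r Y| ≤ ε * Y := by
  obtain ⟨R, hR⟩ : ∃ R : ℕ → Prop, ∀ n, R n ↔ (Squarefree n ∧ n % m ∈ KQ m P s k r fun _ => True) :=
    ⟨_, fun n => Iff.rfl⟩
  obtain ⟨δ, Y₀, hδ, h⟩ := ekp_sqf hf hm y _ hR ε hε
  refine ⟨δ, Y₀, hδ, fun Y hY T hT P' hP' => ?_⟩
  have h1 := h Y hY T hT
  have hR' : ∀ n, R n ↔ (Squarefree n ∧ n % 4 = r ∧ P (s * ((k * n : ℕ) : ℤ))) := by
    intro n
    rw [hR]
    refine and_congr_right fun hn => ?_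
    rw [mem_KQ h136 hm hP hs hk hr (C := fun _ => True) (fun _ => Iff.rfl) hn]
    tauto
  have hE : ∀ n : ℕ, n % 4 = r → (Eg g T (opf (s * ((k * n : ℕ) : ℤ))) ↔ Ev f T n) := by
    intro n hn
    rw [opf_eq hs hk (by omega)]
    unfold Eg Ev
    exact forall_congr' fun i => by rw [hg]
  have e1 : NN P s k r Y = ((Icc 1 Y).filter fun n => R n).card := by
    unfold Pool.Agent.N919.BS.NN
    exact filter_card_congr _ fun n _ => (hR' n).symm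
  have e2 : NN P' s k r Y = ((Icc 1 Y).filter fun n => R n ∧ Ev f T n).card := by
    unfold Pool.Agent.N919.BS.NN
    refine filter_card_congr _ fun n _ => ?_
    rw [hR', hP']
    constructor
    · rintro ⟨h1, h2, h3, h4⟩
      exact ⟨⟨h1, h2, h3⟩, (hE n h2).1 h4⟩
    · rintro ⟨⟨h1, h2, h3⟩, h4⟩
      exact ⟨h1, h2, h3, (hE n h2).2 h4⟩
  rw [e1, e2]
  exact h1

/-- one bound for all classes and all ranges `X / e`, `e ≤ 8` -/
theorem ek_all (hf : Vec f mu lam) (hg : ∀ i n, f i n = g i n.primeFactors)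
    {m : ℕ} (h136 : 136 ∣ m) (hm : 0 < m) {P : ℤ → Prop} (hP : Lc m P)
    (y : ι → ℝ) (ε : ℝ) (hε : 0 < ε) :
    ∃ (δ : ℝ) (X₀ : ℕ), 0 < δ ∧ ∀ X : ℕ, X₀ ≤ X → ∀ T : ι → ℝ, Near mu lam y δ X T →
      ∀ P' : ℤ → Prop, (∀ d, P' d ↔ (P d ∧ Eg g T (opf d))) →
      ∀ (s : ℤ) (k r e : ℕ), (s = 1 ∨ s = -1) → (k = 1 ∨ k = 2) →
      (r = 1 ∨ r = 3) → 1 ≤ e → e ≤ 8 →
      |(NN P' s k r (X / e) : ℝ) - kap y * NN P s k r (X / e)| ≤ ε * X := by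
  have h1 : ∀ (s : ℤ) (k r : ℕ), ∃ (δ : ℝ) (Y₀ : ℕ), 0 < δ ∧ ((s = 1 ∨ s = -1) → (k = 1 ∨ k = 2) →
      (r = 1 ∨ r = 3) → ∀ Y : ℕ, Y₀ ≤ Y → ∀ T : ι → ℝ, Near mu lam y δ Y T →
      ∀ P' : ℤ → Prop, (∀ d, P' d ↔ (P d ∧ Eg g T (opf d))) →
      |(NN P' s k r Y : ℝ) - kap y * NN P s k r Y| ≤ ε * Y) := by
    intro s k r
    by_cases h : (s = 1 ∨ s = -1) ∧ (k = 1 ∨ k = 2) ∧ (r = 1 ∨ r = 3)
    · obtain ⟨δ, Y₀, hδ, hY⟩ := ek_NN hf hg h136 hm hP h.1 h.2.1 h.2.2 y ε hε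
      exact ⟨δ, Y₀, hδ, fun _ _ _ => hY⟩
    · exact ⟨1, 0, one_pos, fun a b d => absurd ⟨a, b, d⟩ h⟩
  choose D Y hD hY using h1
  obtain ⟨δ, hδ, hδ'⟩ : ∃ δ : ℝ, 0 < δ ∧ ∀ (s : ℤ) (k r : ℕ), (s = 1 ∨ s = -1) → (k = 1 ∨ k = 2) →
      (r = 1 ∨ r = 3) → δ ≤ D s k r := by
    refine ⟨min (min (min (D 1 1 1) (D 1 1 3)) (min (D 1 2 1) (D 1 2 3)))
      (min (min (D (-1) 1 1) (D (-1) 1 3)) (min (D (-1) 2 1) (D (-1) 2 3))),
      lt_min (lt_min (lt_min (hD _ _ _) (hD _ _ _)) (lt_min (hD _ _ _) (hD _ _ _)))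
        (lt_min (lt_min (hD _ _ _) (hD _ _ _)) (lt_min (hD _ _ _) (hD _ _ _))), ?_⟩
    rintro s k r (rfl | rfl) (rfl | rfl) (rfl | rfl)
    · exact (min_le_left _ _).trans ((min_le_left _ _).trans (min_le_left _ _))
    · exact (min_le_left _ _).trans ((min_le_left _ _).trans (min_le_right _ _))
    · exact (min_le_left _ _).trans ((min_le_right _ _).trans (min_le_left _ _))
    · exact (min_le_left _ _).trans ((min_le_right _ _).trans (min_le_right _ _))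
    · exact (min_le_right _ _).trans ((min_le_left _ _).trans (min_le_left _ _))
    · exact (min_le_right _ _).trans ((min_le_left _ _).trans (min_le_right _ _))
    · exact (min_le_right _ _).trans ((min_le_right _ _).trans (min_le_left _ _))
    · exact (min_le_right _ _).trans ((min_le_right _ _).trans (min_le_right _ _))
  obtain ⟨s₀, hs₀, hsh⟩ := shift_v mu lam y hδ
  obtain ⟨X₃, hX₃⟩ := eventually_atTop.1 (LL_top.eventually (eventually_ge_atTop (s₀ ^ 2)))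
  refine ⟨δ / 4, 100 + X₃ + 8 * (Y 1 1 1 + Y 1 1 3 + Y 1 2 1 + Y 1 2 3 + (Y (-1) 1 1 + Y (-1) 1 3 +
    Y (-1) 2 1 + Y (-1) 2 3)), by positivity, fun X hX T hT P' hP' s k r e hs hk hr he he' => ?_⟩
  have h2 : Y s k r ≤ X / e := by
    rw [Nat.le_div_iff_mul_le (by omega)]
    have h3 : Y s k r * e ≤ Y s k r * 8 := Nat.mul_le_mul_left _ he'
    rcases hs with rfl | rfl <;> rcases hk with rfl | rfl <;> rcases hr with rfl | rfl <;> omega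
  have hJ : 3 ≤ X / e := by
    rw [Nat.le_div_iff_mul_le (by omega)]
    omega
  have hJX : X / e ≤ X := Nat.div_le_self X e
  have hq1 : X ≤ (X / e) ^ 2 := by
    have h3 : X < (X / e + 1) * e := Nat.lt_mul_of_div_lt (Nat.lt_succ_self _) (by omega)
    have h4 : X < (X / e + 1) * 8 := lt_of_lt_of_le h3 (Nat.mul_le_mul_left _ he')
    have h5 : 12 ≤ X / e := by
      rw [Nat.le_div_iff_mul_le (by omega)]
      omega
    nlinarith
  have hq2 : X / e ≤ X ^ 2 := by nlinarith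
  have hcl := LL_close (J := X / e) (Y := X) hq1 hq2 (by omega) hJ
  have hL : s₀ ^ 2 ≤ LL X := hX₃ X (by omega)
  have hJL0 : 0 ≤ LL (X / e) := by
    have h3 : (3 : ℝ) ≤ (X / e : ℕ) := by exact_mod_cast hJ
    unfold Pool.Agent.H468.WM.LL
    apply Real.log_nonneg
    rw [Real.le_log_iff_exp_le (by linarith)]
    have := Real.exp_one_lt_d9
    linarith
  have h3 := hsh X (X / e) hL hJL0 hcl T hT
  refine (hY s k r hs hk hr _ h2 T (h3.mono (hδ' s k r hs hk hr)) P' hP').trans ?_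
  refine mul_le_mul_of_nonneg_left ?_ hε.le
  exact_mod_cast hJX

/-- Erdős–Kac for all squarefree integers -/
theorem ek_NS (hf : Vec f mu lam) (hg : ∀ i n, f i n = g i n.primeFactors)
    {m : ℕ} (h136 : 136 ∣ m) (hm : 0 < m) {P : ℤ → Prop} (hP : Lc m P)
    (y : ι → ℝ) (ε : ℝ) (hε : 0 < ε) :
    ∃ (δ : ℝ) (X₀ : ℕ), 0 < δ ∧ ∀ X : ℕ, X₀ ≤ X → ∀ T : ι → ℝ, Near mu lam y δ X T →
      ∀ P' : ℤ → Prop, (∀ d, P' d ↔ (P d ∧ Eg g T (opf d))) →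
      |(NS P' X : ℝ) - kap y * NS P X| ≤ ε * X := by
  obtain ⟨δ, X₀, hδ, h⟩ := ek_all hf hg h136 hm hP y (ε / 8) (by positivity)
  refine ⟨δ, X₀, hδ, fun X hX T hT P' hP' => ?_⟩
  have a := h X hX T hT P' hP'
  have e1 := a 1 1 1 1 (Or.inl rfl) (Or.inl rfl) (Or.inl rfl) le_rfl (by norm_num)
  have e2 := a 1 1 3 1 (Or.inl rfl) (Or.inl rfl) (Or.inr rfl) le_rfl (by norm_num)
  have e3 := a 1 2 1 2 (Or.inl rfl) (Or.inr rfl) (Or.inl rfl) (by norm_num) (by norm_num)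
  have e4 := a 1 2 3 2 (Or.inl rfl) (Or.inr rfl) (Or.inr rfl) (by norm_num) (by norm_num)
  have e5 := a (-1) 1 1 1 (Or.inr rfl) (Or.inl rfl) (Or.inl rfl) le_rfl (by norm_num)
  have e6 := a (-1) 1 3 1 (Or.inr rfl) (Or.inl rfl) (Or.inr rfl) le_rfl (by norm_num)
  have e7 := a (-1) 2 1 2 (Or.inr rfl) (Or.inr rfl) (Or.inl rfl) (by norm_num) (by norm_num)
  have e8 := a (-1) 2 3 2 (Or.inr rfl) (Or.inr rfl) (Or.inr rfl) (by norm_num) (by norm_num)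
  rw [Nat.div_one] at e1 e2 e5 e6
  rw [NS_eq, NS_eq]
  push_cast
  rw [abs_le] at e1 e2 e3 e4 e5 e6 e7 e8 ⊢
  constructor
  · linarith [e1.1, e2.1, e3.1, e4.1, e5.1, e6.1, e7.1, e8.1]
  · linarith [e1.2, e2.2, e3.2, e4.2, e5.2, e6.2, e7.2, e8.2]

/-- closeness for all squarefree integers -/
theorem close_NSW {m : ℕ} {P G : ℤ → Prop} {c : ℝ} (hG : HGW m P G c) :
    ∀ ε : ℝ, 0 < ε → ∃ X₀ : ℕ, ∀ X : ℕ, X₀ ≤ X → ∀ W : Finset ℕ → Prop, Wt m W →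
      |(NS (fun d => P d ∧ (G d ∧ W (opf d))) X : ℝ) - c * (NS (fun d => P d ∧ W (opf d)) X : ℝ)| ≤
        ε * X := by
  intro ε hε
  obtain ⟨X₀, hX₀⟩ := hG.all (ε := ε / 8) (by positivity)
  refine ⟨X₀, fun X hX W hW => ?_⟩
  have a := hX₀ X hX W hW
  have e1 := a 1 1 1 1 (Or.inl rfl) (Or.inl rfl) (Or.inl rfl) le_rfl (by norm_num)
  have e2 := a 1 1 3 1 (Or.inl rfl) (Or.inl rfl) (Or.inr rfl) le_rfl (by norm_num)
  have e3 := a 1 2 1 2 (Or.inl rfl) (Or.inr rfl) (Or.inl rfl) (by norm_num) (by norm_num)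
  have e4 := a 1 2 3 2 (Or.inl rfl) (Or.inr rfl) (Or.inr rfl) (by norm_num) (by norm_num)
  have e5 := a (-1) 1 1 1 (Or.inr rfl) (Or.inl rfl) (Or.inl rfl) le_rfl (by norm_num)
  have e6 := a (-1) 1 3 1 (Or.inr rfl) (Or.inl rfl) (Or.inr rfl) le_rfl (by norm_num)
  have e7 := a (-1) 2 1 2 (Or.inr rfl) (Or.inr rfl) (Or.inl rfl) (by norm_num) (by norm_num)
  have e8 := a (-1) 2 3 2 (Or.inr rfl) (Or.inr rfl) (Or.inr rfl) (by norm_num) (by norm_num)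
  rw [Nat.div_one] at e1 e2 e5 e6
  rw [NS_eq, NS_eq]
  push_cast
  rw [abs_le] at e1 e2 e3 e4 e5 e6 e7 e8 ⊢
  constructor
  · linarith [e1.1, e2.1, e3.1, e4.1, e5.1, e6.1, e7.1, e8.1]
  · linarith [e1.2, e2.2, e3.2, e4.2, e5.2, e6.2, e7.2, e8.2]

theorem cnt_dvd {m M : ℕ} (hM0 : 0 < M) (hM : m ∣ M) {S S' : Finset ℕ} (h : cnt M S = cnt M S') :
    cnt m S = cnt m S' := by
  have key : ∀ S : Finset ℕ, ∀ a, cnt m S a = ∑ b ∈ (range M).filter fun b => b % m = a, cnt M S b := by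
    intro S a
    unfold Pool.Agent.H468.WM.cnt
    rw [card_eq_sum_card_fiberwise (f := fun p => p % M) (t := (range M).filter fun b => b % m = a)]
    · refine sum_congr rfl fun b hb => ?_
      rw [mem_filter] at hb
      rw [filter_filter]
      refine filter_card_congr _ fun p _ => ?_
      constructor
      · exact fun h => h.2
      · intro h
        refine ⟨?_, h⟩
        rw [← Nat.mod_mod_of_dvd p hM, h]
        exact hb.2
    · intro p hp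
      rw [mem_coe, mem_filter] at hp
      rw [mem_coe, mem_filter, mem_range]
      refine ⟨Nat.mod_lt _ hM0, ?_⟩
      show p % M % m = a
      rw [Nat.mod_mod_of_dvd p hM]
      exact hp.2
  funext a
  rw [key S, key S', h]

theorem wt_dvd {m M : ℕ} (hM0 : 0 < M) (hM : m ∣ M) {W : Finset ℕ → Prop} (hW : Wt m W) : Wt M W :=
  fun S S' h => hW S S' (cnt_dvd hM0 hM h)

theorem wt_eg {m : ℕ} (hg : ∀ i S S', cnt m S = cnt m S' → g i S = g i S') (T : ι → ℝ) : Wt m (Eg g T) := by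
  intro S S' h
  unfold Eg
  exact forall_congr' fun i => by rw [hg i S S' h]

/-- **the criterion and Erdős–Kac at once** -/
theorem clt_NS (hf : Vec f mu lam) (hg : ∀ i n, f i n = g i n.primeFactors)
    (hg' : ∀ i S S', cnt 136 S = cnt 136 S' → g i S = g i S')
    {m : ℕ} (h136 : 136 ∣ m) (hm : 0 < m) {Q : ℤ → Prop} (hQ : Lc m Q)
    (y : ι → ℝ) (ε : ℝ) (hε : 0 < ε) :
    ∃ (δ : ℝ) (X₀ : ℕ), 0 < δ ∧ ∀ X : ℕ, X₀ ≤ X → ∀ T : ι → ℝ, Near mu lam y δ X T →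
      ∀ P' : ℤ → Prop, (∀ d, P' d ↔ ((Rt17 d ∧ Q d) ∧ (G17 d ∧ Eg g T (opf d)))) →
      |(NS P' X : ℝ) - c2 * kap y * NS (fun d => Rt17 d ∧ Q d) X| ≤ ε * X := by
  have hP : Lc m fun d => Rt17 d ∧ Q d := lc_and (lc_root (Dvd.dvd.trans (by norm_num) h136)) hQ
  obtain ⟨δ, X₀, hδ, h1⟩ := ek_NS hf hg h136 hm hP y (ε / 2) (by positivity)
  obtain ⟨X₁, h2⟩ := close_NSW (hglW h136 hm hQ) (ε / 2) (by positivity)
  refine ⟨δ, X₀ + X₁, hδ, fun X hX T hT P' hP' => ?_⟩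
  have a1 := h1 X (by omega) T hT (fun d => (Rt17 d ∧ Q d) ∧ Eg g T (opf d)) fun _ => Iff.rfl
  have a2 := h2 X (by omega) (Eg g T) (wt_dvd hm h136 (wt_eg hg' T))
  have e1 : NS P' X = NS (fun d => (Rt17 d ∧ Q d) ∧ (G17 d ∧ Eg g T (opf d))) X :=
    NS_congr hP' X
  rw [e1]
  obtain ⟨p0, p1⟩ := Pool.Agent.N916.MO.c201
  have a3 : |c2 * ((NS (fun d => (Rt17 d ∧ Q d) ∧ Eg g T (opf d)) X : ℝ) -
      kap y * NS (fun d => Rt17 d ∧ Q d) X)| ≤ ε / 2 * X := by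
    rw [abs_mul, abs_of_nonneg p0]
    calc c2 * |(NS (fun d => (Rt17 d ∧ Q d) ∧ Eg g T (opf d)) X : ℝ) -
          kap y * NS (fun d => Rt17 d ∧ Q d) X| ≤ 1 * (ε / 2 * X) :=
          mul_le_mul p1 a1 (abs_nonneg _) zero_le_one
      _ = ε / 2 * X := one_mul _
  rw [abs_le] at a2 a3 ⊢
  constructor
  · linarith [a2.1, a3.1]
  · linarith [a2.2, a3.2]

end Pool.Agent.H468.WN
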